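import Pool.Agent.Lib.MP_6bc78b_nt.MS.GL.Iface
import Pool.Agent.Lib.MP_6bc78b_nt.MS.QZ.H70.Qfc

/-! Module QSY: symmetry of the tail of the normal distribution, and intervals. -/

set_option autoImplicit false

open Complex Filter Topology MeasureTheory ArithmeticFunction

namespace Pool.Agent.Lib.MP_6bc78b_nt.MS.GL.H46

open Pool.Agent.Lib.MP_6bc78b_nt.MS Pool.Agent.Lib.MP_6bc78b_nt.MS.QZ
  Pool.Agent.Lib.MP_6bc78b_nt.MS.GL

/-- The difference of two tails is an interval integral. -/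
theorem qf_sub (a b : ℝ) (hab : a ≤ b) :
    Qf a - Qf b = (Real.sqrt (2 * Real.pi))⁻¹ * (∫ u in a..b, Real.exp (-(u ^ 2 / 2))) := by
  have h := intervalIntegral.integral_Ioi_sub_Ioi
    (f := fun u : ℝ => Real.exp (-(u ^ 2 / 2))) (μ := volume)
    (MS.QZ.H70.qfc_int.integrableOn (s := Set.Ioi a)) hab
  unfold Qf
  rw [← mul_sub, h]

theorem qsy : QsyStatement := by
  intro a b hab
  have e1 := qf_sub a b hab
  have e2 := qf_sub (-b) (-a) (neg_le_neg hab)
  refine ⟨?_, e1.symm⟩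
  rw [e1, e2]
  congr 1
  have h := intervalIntegral.integral_comp_neg (a := a) (b := b)
    (fun u : ℝ => Real.exp (-(u ^ 2 / 2)))
  rw [← h]
  simp

end Pool.Agent.Lib.MP_6bc78b_nt.MS.GL.H46
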